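import Pool.Agent.Results.MP_33f996_nt.RoughSummandPrimeOfSize
import Pool.Agent.Y854.GM.Win

/-!
# Goldbach with a prime of size `N ^ η` and a rough second summand, for all even numbers of windows

Let `v ≥ 1` be a sequence with exponent of convergence at most `τ` (for `v_n = n ^ a` this is `1 / a`, for `v_n = b ^ n`
or `n!` it is `0`), `0 ≤ θ < 1`, `1 / 2 < η < 1`, `0 < u < (1 + η) / 4` and `s > max (1 - η) (4 u - η)`. For all `α > 0`
outside a set of Hausdorff dimension at most `(s + τ) / (1 - θ)` and all but finitely many `n`, for ALL even `N` with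
`|N - α v_n| ≤ v_n ^ θ` there are at least `δ 𝔖(N) N ^ η / (log N) ^ 2` primes `p` with `√N < p < N / 2`,
`N ^ η / 4 < p < N ^ η` such that all prime factors of `N - p` are larger than `N ^ u`. For `η` close to `1` and `u > 1/3`
the number `N - p` has at most two prime factors, and windows of length `v_n ^ θ`, `θ < 2 / 3`, are admissible.
-/

set_option autoImplicit false

open Finset

namespace Pool.Agent.Results.MP_33f996_nt.EveryNumberInWindows

/-- the exponent of convergence of the sequence `v` is at most `τ` -/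
def ExpLe (v : ℕ → ℝ) (τ : ℝ) : Prop := ∀ t : ℝ, τ < t → Summable (fun n : ℕ => (v n) ^ (-t))

/-- the variable part of the singular series of the Goldbach problem -/
noncomputable def sing (N : ℕ) : ℝ :=
  ∏ p ∈ N.primeFactors.erase 2, (((p : ℝ) - 1) / ((p : ℝ) - 2))

open Classical in
/-- the number of primes `p` with `√N < p < N / 2` and `N ^ η / 4 < p < N ^ η` such that all prime
factors of `N - p` are larger than `N ^ u` -/
noncomputable def sizeCount (η u : ℝ) (N : ℕ) : ℕ :=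
  ((range N).filter (fun p : ℕ => p.Prime ∧ Real.sqrt N < p ∧ (p : ℝ) < N / 2 ∧
    (N : ℝ) ^ η / 4 < p ∧ (p : ℝ) < (N : ℝ) ^ η ∧
    ∀ q : ℕ, q.Prime → q ∣ (N - p) → (N : ℝ) ^ u < q)).card

/-- the exceptional even numbers -/
def Exc (η u δ : ℝ) : Set ℕ :=
  {N : ℕ | Even N ∧ (sizeCount η u N : ℝ) < δ * sing N * ((N : ℝ) ^ η / Real.log N ^ 2)}

open Classical in
lemma count (η u s : ℝ) (hη : 1 / 2 < η) (hη1 : η < 1) (hu : 0 < u) (hu1 : u < (1 + η) / 4)
    (hs : max (1 - η) (4 * u - η) < s) :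
    ∃ δ : ℝ, 0 < δ ∧ ∀ ε : ℝ, 0 < ε → ∃ C : ℝ, ∀ X : ℕ, 1 ≤ X →
      (((Ioc 0 X).filter (fun t => t ∈ Exc η u δ)).card : ℝ) ≤ C * (X : ℝ) ^ (s + ε) := by
  obtain ⟨δ, C, hδ, hC, h⟩ := RoughSummandPrimeOfSize.result η u (s - max (1 - η) (4 * u - η)) hη hη1 hu hu1
    (by linarith)
  refine ⟨δ, hδ, fun ε hε => ⟨C, fun X hX => ?_⟩⟩
  have h1 := h X hX
  have hX1 : (1 : ℝ) ≤ X := by exact_mod_cast hX
  have hsub : (Ioc 0 X).filter (fun t => t ∈ Exc η u δ) ⊆ (Icc 1 X).filter (fun N => Even N ∧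
        (RoughSummandPrimeOfSize.sizeCount η u N : ℝ) <
          δ * RoughSummandPrimeOfSize.sing N * ((N : ℝ) ^ η / Real.log N ^ 2)) := by
    intro t ht
    rw [mem_filter, mem_Ioc] at ht
    rw [mem_filter, mem_Icc]
    exact ⟨⟨ht.1.1, ht.1.2⟩, ht.2⟩
  calc (((Ioc 0 X).filter (fun t => t ∈ Exc η u δ)).card : ℝ)
      ≤ (((Icc 1 X).filter (fun N => Even N ∧
        (RoughSummandPrimeOfSize.sizeCount η u N : ℝ) <
          δ * RoughSummandPrimeOfSize.sing N * ((N : ℝ) ^ η / Real.log N ^ 2))).card : ℝ) := by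
        exact_mod_cast Finset.card_le_card hsub
    _ ≤ C * (X : ℝ) ^ (max (1 - η) (4 * u - η) + (s - max (1 - η) (4 * u - η))) := by
        convert h1 using 2
    _ ≤ C * (X : ℝ) ^ (s + ε) := by
        apply mul_le_mul_of_nonneg_left _ hC.le
        apply Real.rpow_le_rpow_of_exponent_le hX1
        linarith

/-- **Theorem.** Let `1 / 2 < η < 1`, `0 < u < (1 + η) / 4` and `s > max (1 - η) (4 u - η)`. There is `δ > 0` such that for
all sequences `v ≥ 1` of exponent of convergence at most `τ ≥ 0` and `0 ≤ θ < 1` there is a set `E` of Hausdorff dimension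
at most `(s + τ) / (1 - θ)` such that for each `α > 0` outside `E` and all but finitely many `n`, for ALL even `N` with
`|N - α v_n| ≤ v_n ^ θ` there are at least `δ 𝔖(N) N ^ η / (log N) ^ 2` primes `p` with `√N < p < N / 2` and
`N ^ η / 4 < p < N ^ η` such that all prime factors of `N - p` are larger than `N ^ u`. The sequences
`v_n = (n + 1) ^ a` and `v_n = b ^ n` have exponent of convergence at most `1 / a` and `0`. -/
theorem result :
    (∀ η u s : ℝ, 1 / 2 < η → η < 1 → 0 < u → u < (1 + η) / 4 → max (1 - η) (4 * u - η) < s → ∃ δ : ℝ, 0 < δ ∧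
      ∀ (v : ℕ → ℝ) (τ θ : ℝ), (∀ n, 1 ≤ v n) → 0 ≤ τ → ExpLe v τ → 0 ≤ θ → θ < 1 →
      ∃ E : Set ℝ, dimH E ≤ ENNReal.ofReal ((s + τ) / (1 - θ)) ∧
        ∀ α : ℝ, 0 < α → α ∉ E → ∃ n₀ : ℕ, ∀ n : ℕ, n₀ ≤ n → ∀ N : ℕ, Even N → |(N : ℝ) - α * v n| ≤ (v n) ^ θ →
          δ * sing N * ((N : ℝ) ^ η / Real.log N ^ 2) ≤ (sizeCount η u N : ℝ)) ∧
    (∀ a : ℝ, 0 < a → ExpLe (fun n : ℕ => ((n : ℝ) + 1) ^ a) (1 / a)) ∧
    (∀ b : ℝ, 1 < b → ExpLe (fun n : ℕ => b ^ n) 0) := by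
  refine ⟨fun η u s hη hη1 hu hu1 hs => ?_, fun κ hκ => Pool.Agent.Y854.GM.expLe_pow κ hκ,
    fun b hb => Pool.Agent.Y854.GM.expLe_geom b hb⟩
  obtain ⟨δ, hδ, hcount⟩ := count η u s hη hη1 hu hu1 hs
  refine ⟨δ, hδ, fun v τ θ hv hτ hE hθ hθ1 => ?_⟩
  have hs0 : 0 ≤ s := by
    have := le_max_left (1 - η) (4 * u - η)
    linarith
  obtain ⟨E, h2, h3⟩ := Pool.Agent.Y854.GM.win_nat (Exc η u δ) hv hτ hE (s := s) hs0 hθ1 hcount
  refine ⟨E, h2, fun α hα hαE => ?_⟩
  obtain ⟨n₀, hn⟩ := h3 α hα hαE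
  refine ⟨n₀, fun n hn1 N hN hw => ?_⟩
  by_contra hcon
  push Not at hcon
  exact (hn n hn1 N hw).2 ⟨hN, hcon⟩

end Pool.Agent.Results.MP_33f996_nt.EveryNumberInWindows
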