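import Pool.Agent.Y882.GX.Ev

/-!
# Every even number: a prime at every scale plus an almost prime

The question asks for a prime `p` with `√(2n) < p < n` and `2n - p` prime.  Here, for EVERY large even
`N = 2n` and for EVERY `x` with `N ^ θ ≤ x ≤ n`, there are many primes `p` in `(x / 2, x)` such that
`N - p` has at most `r` prime factors, none of them small, where `r` is a little more than
`20 / (9 θ)`: five prime factors at every scale from `√(2n)` on, three from `N ^ 0.74` on.
-/

set_option autoImplicit false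

open Finset Filter

namespace Pool.Agent.Results.MP_33f996_nt.EveryScaleEveryNumber

/-- the variable part of the singular series of the Goldbach problem -/
noncomputable def sing (N : ℕ) : ℝ :=
  ∏ p ∈ N.primeFactors.erase 2, (((p : ℝ) - 1) / ((p : ℝ) - 2))

open Classical in
/-- The number of the primes `p < N` with `x / 2 < p < x` such that `N - p` has at most `r` prime
factors (counted with multiplicity), all of them at least `w`. -/
noncomputable def inWindow (r : ℕ) (w x : ℝ) (N : ℕ) : ℕ :=
  ((range N).filter (fun p : ℕ => p.Prime ∧ x / 2 < p ∧ (p : ℝ) < x ∧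
    (N - p).primeFactorsList.length ≤ r ∧
    ∀ q : ℕ, q.Prime → q ∣ (N - p) → w ≤ q)).card

/-- **Every even number, every scale.** Let `0 < τ < θ / 2 ≤ 1 / 2` and `(r + 3 / 80) τ > 10 / 9`.
There are `δ > 0` and `N0` such that for every even `N ≥ N0` and every real `x` with
`N ^ θ ≤ x ≤ N / 2` at least `δ sing N x / (log N) ^ 2` primes `p` in `(x / 2, x)` are such that
`N - p` has at most `r` prime factors, all of them at least `N ^ (τ / 4) / 2`. -/
theorem result (r : ℕ) (θ τ : ℝ) (hτ0 : 0 < τ) (hτθ : τ < θ / 2) (hθ1 : θ ≤ 1)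
    (hr : 10 / 9 < (r + 3 / 80) * τ) :
    ∃ δ : ℝ, 0 < δ ∧ ∃ N0 : ℕ, ∀ N : ℕ, N0 ≤ N → Even N → ∀ x : ℝ, (N : ℝ) ^ θ ≤ x → x ≤ N / 2 →
      δ * sing N * (x / Real.log N ^ 2) ≤ (inWindow r ((N : ℝ) ^ (τ / 4) / 2) x N : ℝ) :=
  Pool.Agent.Y882.GX.everyEvery r θ τ hτ0 hτθ hθ1 hr

end Pool.Agent.Results.MP_33f996_nt.EveryScaleEveryNumber
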