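import Pool.Agent.Y816.PD.UniL

set_option autoImplicit false

/-!
# `2 n = p + q` with almost primes `p`, `q`, `sqrt (2 n) < p < n`, and restricted digits of `p`

For every large `n` the integers `p < b ^ K`, `K = log_b n` (integer part), whose `i`-th digit in base `b` belongs
to an arbitrary set `A i` for all `i < K` are considered, the product of the `|A i|` being at least
`exp (- c K) b ^ K`.
-/

namespace Pool.Agent.Results.MP_33f996_nt.RestrictedDigits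

open Finset Filter Polynomial
open Pool.Agent.Y816.PD (ND NA Alm Rgh WG)

/-- The product of the two summands of `2 n`. -/
def G (n p : ℕ) : ℤ := (p : ℤ) * (2 * (n : ℤ) - p)

lemma adm (n : ℕ) (l : ℕ) (hl : l.Prime) : ∃ p : ℕ, ¬ (l : ℤ) ∣ G n p := by
  obtain ⟨j, hj⟩ := Pool.Agent.Y816.PD.adm_gold (N := 2 * (n : ℤ)) (even_two_mul _) 0 l hl
  refine ⟨j, ?_⟩
  unfold G
  simpa using hj

lemma G_eq {n p : ℕ} (h : p ≤ n) : G n p = ((p * (2 * n - p) : ℕ) : ℤ) := by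
  unfold G
  push_cast [Nat.cast_sub (show p ≤ 2 * n by omega)]
  ring

/-- **Goldbach partitions into almost primes with `sqrt (2 n) < p < n` and restricted digits of `p`.** -/
theorem result :
    ∃ c : ℝ, 0 < c ∧ ∃ r₀ : ℕ, 2 ≤ r₀ ∧ ∀ r : ℕ, r₀ ≤ r →
      (∀ n p : ℕ, p ≤ n → p.Prime → (2 * n - p).Prime → p ∈ Rgh (G n) r) ∧
      ∀ b : ℕ, 2 ≤ b → ∃ κ C : ℝ, 0 < κ ∧ 0 < C ∧ ∀ᶠ n : ℕ in atTop, ∀ K : ℕ, K = Nat.log b n →
        ∀ A : ℕ → Finset ℕ, (∀ i < K, A i ⊆ range b) → (b : ℝ) ^ K ≤ Real.exp (c * K) * NA K A →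
        ((∃ d ∈ A 0, (G n d).natAbs.Coprime b) → (∃ d ∈ A (K - 1), d ≠ 0) →
          κ * NA K A * WG (G n) (b ^ K) ≤
            ND b K A {p | (2 * n < p ^ 2 ∧ p < n) ∧ p ∈ Alm (G n) r (b ^ K)}) ∧
        (ND b K A (Rgh (G n) r) : ℝ) ≤ C * NA K A * WG (G n) (b ^ K) := by
  obtain ⟨c, hc, r₀, hr₀, h⟩ := Pool.Agent.Y816.PD.uni_top 2 4 (by norm_num)
  refine ⟨c, hc, r₀, hr₀, fun r hr => ⟨fun n p hpn h1 h2 l hl hd => ?_, fun b hb => ?_⟩⟩
  · have h2r : 2 ≤ r := hr₀.trans hr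
    rw [G_eq hpn, Int.natCast_dvd_natCast] at hd
    refine Pool.Agent.Y816.PD.lt_pow_of_le hl ?_ h2r
    rcases (hl.dvd_mul).1 hd with hd | hd
    · exact ((Nat.prime_dvd_prime_iff_eq hl h1).1 hd).ge
    · rw [(Nat.prime_dvd_prime_iff_eq hl h2).1 hd]
      omega
  · obtain ⟨κ, C₁, hκ, hC, h1⟩ := h r hr b hb
    refine ⟨κ, C₁, hκ, hC, ?_⟩
    obtain ⟨K0, hK0⟩ := eventually_atTop.1 h1
    filter_upwards [eventually_ge_atTop (b ^ (K0 + 5))] with n hn K hK A hA hprod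
    have hn1 : 1 ≤ n := le_trans (Nat.one_le_pow _ _ (by omega)) hn
    have hKK : K0 + 5 ≤ K := by
      rw [hK]
      exact Nat.le_log_of_pow_le (by omega) hn
    have hb1 : b ^ K ≤ n := by
      rw [hK]
      exact Nat.pow_log_le_self b (by omega)
    have hb2 : n < b ^ (K + 1) := by
      rw [hK]
      exact Nat.lt_pow_succ_log_self (by omega) _
    have h2n : 2 * n < b ^ (K + 2) := by
      calc 2 * n < 2 * b ^ (K + 1) := by omega
        _ ≤ b * b ^ (K + 1) := Nat.mul_le_mul_right _ hb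
        _ = b ^ (K + 2) := by ring
    have hpoly : ∃ P : ℤ[X], P.natDegree ≤ 2 ∧ ∀ k : ℕ, P.eval (k : ℤ) = G n k := by
      refine ⟨X * (C (2 * (n : ℤ)) - X), ?_, fun k => ?_⟩
      · compute_degree
      · unfold G
        simp only [eval_mul, eval_sub, eval_X, eval_C]
    have hsize : ∀ k : ℕ, k < b ^ K → (G n k).natAbs ≤ b ^ (4 * K) := by
      intro k hk
      rw [G_eq (by omega), Int.natAbs_natCast]
      calc k * (2 * n - k) ≤ b ^ K * b ^ (K + 2) := Nat.mul_le_mul hk.le (by omega)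
        _ = b ^ (2 * K + 2) := by rw [← pow_add]; congr 1; ring
        _ ≤ b ^ (4 * K) := Nat.pow_le_pow_right (by omega) (by omega)
    obtain ⟨h2, h3⟩ := hK0 K (by omega) (G n) hpoly (adm n) hsize A hA hprod
    refine ⟨fun hd htop => (h2 hd htop).trans ?_, h3⟩
    apply Nat.cast_le.2
    apply Pool.Agent.Y816.PD.ND_mono'
    intro k hkK hk
    refine ⟨⟨?_, by omega⟩, hk.2⟩
    calc 2 * n < b ^ (K + 2) := h2n
      _ ≤ b ^ (2 * (K - 1)) := Nat.pow_le_pow_right (by omega) (by omega)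
      _ = (b ^ (K - 1)) ^ 2 := by rw [← pow_mul]; congr 1; ring
      _ ≤ k ^ 2 := Nat.pow_le_pow_left hk.1 2

end Pool.Agent.Results.MP_33f996_nt.RestrictedDigits
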