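import Pool.Agent.Y882.Cum

/-!
# Goldbach with a prime `p` of size `N ^ θ`, `1 / 2 < θ < 1`, and a rough second summand

For `1 / 2 < θ < 1`, `0 < u < (1 + θ) / 4` and `ε > 0`: for all but
`O(X ^ (max (1 - θ) (4 u - θ) + ε))` even numbers `N ≤ X` there are at least
`δ ∏_{p ∣ N, p > 2} (p - 1) / (p - 2) * N ^ θ / (log N) ^ 2` primes `p` with `√N < p < N / 2`,
`N ^ θ / 4 < p < N ^ θ` such that all prime factors of `N - p` are larger than `N ^ u`.
-/

set_option autoImplicit false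

open Finset Filter

namespace Pool.Agent.Results.MP_33f996_nt.RoughSummandPrimeOfSize

/-- the variable part of the singular series of the Goldbach problem -/
noncomputable def sing (N : ℕ) : ℝ :=
  ∏ p ∈ N.primeFactors.erase 2, (((p : ℝ) - 1) / ((p : ℝ) - 2))

open Classical in
/-- the number of primes `p` with `√N < p < N / 2` and `N ^ θ / 4 < p < N ^ θ` such that all prime
factors of `N - p` are larger than `N ^ u` -/
noncomputable def sizeCount (θ u : ℝ) (N : ℕ) : ℕ :=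
  ((range N).filter (fun p : ℕ => p.Prime ∧ Real.sqrt N < p ∧ (p : ℝ) < N / 2 ∧
    (N : ℝ) ^ θ / 4 < p ∧ (p : ℝ) < (N : ℝ) ^ θ ∧
    ∀ q : ℕ, q.Prime → q ∣ (N - p) → (N : ℝ) ^ u < q)).card

open Classical in
/-- For all but `O(X ^ (max (1 - θ) (4 u - θ) + ε))` even `N ≤ X` there are
`≫ 𝔖(N) N ^ θ / (log N) ^ 2` primes `p` in `(√N, N / 2)` of size `N ^ θ` such that all prime factors
of `N - p` are larger than `N ^ u`. -/
theorem result :
    ∀ θ u ε : ℝ, 1 / 2 < θ → θ < 1 → 0 < u → u < (1 + θ) / 4 → 0 < ε →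
      ∃ δ C : ℝ, 0 < δ ∧ 0 < C ∧ ∀ X : ℕ, 1 ≤ X →
      (((Icc 1 X).filter (fun N => Even N ∧
        (sizeCount θ u N : ℝ) < δ * sing N * ((N : ℝ) ^ θ / Real.log N ^ 2))).card : ℝ) ≤
      C * (X : ℝ) ^ (max (1 - θ) (4 * u - θ) + ε) := by
  intro θ u ε hθ hθ1 hu hu2 hε
  obtain ⟨δ, hδ, Y0, H⟩ := Pool.Agent.Y882.dyadic θ u ε (by linarith) hθ1.le hu
    (by linarith) hε
  have ev1 : ∀ᶠ Y : ℕ in atTop, (4 : ℝ) ≤ (Y : ℝ) ^ (θ - 1 / 2) :=
    tendsto_natCast_atTop_atTop.eventually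
      ((tendsto_rpow_atTop (by linarith)).eventually_ge_atTop _)
  have ev2 : ∀ᶠ Y : ℕ in atTop, (2 : ℝ) ≤ (Y : ℝ) ^ (1 - θ) :=
    tendsto_natCast_atTop_atTop.eventually
      ((tendsto_rpow_atTop (by linarith)).eventually_ge_atTop _)
  obtain ⟨Y1, HY1⟩ := eventually_atTop.1 (ev1.and (ev2.and (eventually_ge_atTop 3)))
  obtain ⟨C, hC, hcum⟩ := Pool.Agent.Y882.cum (fun N => Even N ∧
    (sizeCount θ u N : ℝ) < δ / 2 * sing N * ((N : ℝ) ^ θ / Real.log N ^ 2))
    (max (1 - θ) (4 * u - θ) + ε)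
    (by have := le_max_left (1 - θ) (4 * u - θ); linarith) (max Y0 Y1) (by
    intro Y hY
    have hY0 : Y0 ≤ Y := (le_max_left _ _).trans hY
    obtain ⟨e1, e2, hY3⟩ := HY1 Y ((le_max_right _ _).trans hY)
    have hYr : (3 : ℝ) ≤ Y := by exact_mod_cast hY3
    have hYp : (0 : ℝ) < Y := by linarith
    have hlY : 0 < Real.log Y := Real.log_pos (by linarith)
    have hx2 : 2 * (Y : ℝ) ^ θ ≤ Y := by
      calc 2 * (Y : ℝ) ^ θ ≤ (Y : ℝ) ^ (1 - θ) * (Y : ℝ) ^ θ :=
            mul_le_mul_of_nonneg_right e2 (by positivity)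
        _ = Y := by
            rw [← Real.rpow_add hYp]
            rw [show 1 - θ + θ = 1 by ring, Real.rpow_one]
    have hx3 : 4 * (Y : ℝ) ^ (1 / 2 : ℝ) ≤ (Y : ℝ) ^ θ := by
      calc 4 * (Y : ℝ) ^ (1 / 2 : ℝ) ≤ (Y : ℝ) ^ (θ - 1 / 2) * (Y : ℝ) ^ (1 / 2 : ℝ) :=
            mul_le_mul_of_nonneg_right e1 (by positivity)
        _ = (Y : ℝ) ^ θ := by
            rw [← Real.rpow_add hYp]
            rw [show θ - 1 / 2 + 1 / 2 = θ by ring]
    have hYθ0 : 0 < (Y : ℝ) ^ θ := by positivity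
    have h1 := H Y hY0 ((Y : ℝ) ^ θ) le_rfl (by linarith)
      ((Ioc Y (2 * Y)).filter (fun N => Even N ∧
        (sizeCount θ u N : ℝ) < δ / 2 * sing N * ((N : ℝ) ^ θ / Real.log N ^ 2))) ?_
    · exact h1
    · intro n hn
      rw [mem_filter, mem_Ioc] at hn
      obtain ⟨⟨h2, h3⟩, h4, h5⟩ := hn
      refine ⟨h2, h3, h4, ?_⟩
      have h12 : (n : ℝ) ≤ 2 * Y := by exact_mod_cast h3
      have h13 : (Y : ℝ) < n := by exact_mod_cast h2
      have h2θ : (n : ℝ) ^ θ ≤ 2 * (Y : ℝ) ^ θ := by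
        calc (n : ℝ) ^ θ ≤ (2 * (Y : ℝ)) ^ θ :=
              Real.rpow_le_rpow (by positivity) h12 (by linarith)
          _ = 2 ^ θ * (Y : ℝ) ^ θ := Real.mul_rpow (by norm_num) (by positivity)
          _ ≤ 2 * (Y : ℝ) ^ θ := by
              apply mul_le_mul_of_nonneg_right _ hYθ0.le
              calc (2 : ℝ) ^ θ ≤ 2 ^ (1 : ℝ) :=
                    Real.rpow_le_rpow_of_exponent_le (by norm_num) hθ1.le
                _ = 2 := Real.rpow_one _
      have h3θ : (Y : ℝ) ^ θ ≤ (n : ℝ) ^ θ :=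
        Real.rpow_le_rpow (by positivity) h13.le (by linarith)
      have h12' : Real.sqrt n < 2 * (Y : ℝ) ^ (1 / 2 : ℝ) := by
        rw [← Real.sqrt_eq_rpow, Real.sqrt_lt' (by positivity), mul_pow,
          Real.sq_sqrt (by linarith)]
        linarith
      have h6 : Pool.Agent.Y882.cnt ((Y : ℝ) ^ θ) (3 * (Y : ℝ) ^ u) n ≤ sizeCount θ u n := by
        unfold Pool.Agent.Y882.cnt sizeCount
        apply card_le_card
        intro p hp
        rw [mem_filter] at hp ⊢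
        obtain ⟨-, h8, h8', h9, h10⟩ := hp
        have h11 : 2 * p < Y := by
          have : 2 * (p : ℝ) < Y := by linarith
          exact_mod_cast this
        refine ⟨mem_range.2 (by omega), h8, by linarith, by linarith, by linarith, by linarith,
          fun q hq hqn => ?_⟩
        refine lt_of_lt_of_le ?_ (h10 q hq hqn)
        have hYu : (0 : ℝ) < (Y : ℝ) ^ u := by positivity
        calc (n : ℝ) ^ u ≤ (2 * (Y : ℝ)) ^ u := Real.rpow_le_rpow (by positivity) h12 hu.le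
          _ = 2 ^ u * (Y : ℝ) ^ u := Real.mul_rpow (by norm_num) (by positivity)
          _ ≤ 2 * (Y : ℝ) ^ u := by
              apply mul_le_mul_of_nonneg_right _ hYu.le
              calc (2 : ℝ) ^ u ≤ 2 ^ (1 : ℝ) :=
                    Real.rpow_le_rpow_of_exponent_le (by norm_num) (by linarith)
                _ = 2 := Real.rpow_one _
          _ < 3 * (Y : ℝ) ^ u := by linarith
      have h7 : (Pool.Agent.Y882.cnt ((Y : ℝ) ^ θ) (3 * (Y : ℝ) ^ u) n : ℝ) ≤
          sizeCount θ u n := by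
        exact_mod_cast h6
      refine h7.trans_lt (h5.trans_le ?_)
      have hs : Pool.Agent.Y882.sgs n = sing n := rfl
      rw [hs]
      have hs1 : 1 ≤ sing n := by rw [← hs]; exact Pool.Agent.Y882.one_le_sgs n
      have h14 : Real.log Y ≤ Real.log n := Real.log_le_log (by linarith) h13.le
      have h15 : (n : ℝ) ^ θ / Real.log n ^ 2 ≤ 2 * (Y : ℝ) ^ θ / Real.log Y ^ 2 := by
        apply div_le_div₀ (by positivity) h2θ (by positivity)
        exact pow_le_pow_left₀ hlY.le h14 2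
      calc δ / 2 * sing n * ((n : ℝ) ^ θ / Real.log n ^ 2) ≤
          δ / 2 * sing n * (2 * (Y : ℝ) ^ θ / Real.log Y ^ 2) :=
            mul_le_mul_of_nonneg_left h15 (by positivity)
        _ = δ * ((Y : ℝ) ^ θ) / Real.log Y ^ 2 * sing n := by ring)
  exact ⟨δ / 2, C, by positivity, hC, fun X hX => hcum X hX⟩

end Pool.Agent.Results.MP_33f996_nt.RoughSummandPrimeOfSize
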